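import Pool.Agent.N875.K17.Stm
import Pool.Agent.N49.QB.Base
import Pool.Agent.N49.QB.Ev

/-!
# Project K17 (helper875): GN, the necessary condition at the places over `p`, `p ∤ 34 m`
(helper42; adapted from helper49's `N49/QB/Base.lean`, `N49/QB/N1.lean`)
-/

set_option autoImplicit false

open NumberField IsDedekindDomain WithZero

namespace Pool.Agent.N42.K17

open Pool.Agent.N49.QB (VV vv_int vv_one val_exp not_mem_of_not_dvd ev_good not_sq_mul)
open Pool.Agent.N875.K17 (Qd LoE)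

section
variable {K : Type} [Field K] [NumberField K] {m : ℤ} {r : K}

/-- the square root of `m` is integral -/
theorem exists_int (h : Qd m K r) : ∃ δ : 𝓞 K, algebraMap (𝓞 K) K δ = r ∧ δ ^ 2 = (m : 𝓞 K) := by
  have hi : IsIntegral ℤ r := by
    refine IsIntegral.of_pow (n := 2) (by norm_num) ?_
    rw [h.hr]
    exact isIntegral_algebraMap (R := ℤ) (A := K) (x := m) |> fun h => by simpa using h
  obtain ⟨δ, hδ⟩ := (IsIntegralClosure.isIntegral_iff (R := ℤ) (A := 𝓞 K)).1 hi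
  refine ⟨δ, hδ, ?_⟩
  apply FaithfulSMul.algebraMap_injective (𝓞 K) K
  rw [map_pow, map_intCast, hδ]
  exact h.hr

/-- a prime which does not divide `2 m` is not ramified -/
theorem not_mem_sq (h : Qd m K r) {p : ℕ} (hp : p.Prime) (hpD : ¬ (p : ℤ) ∣ 2 * m)
    (v : HeightOneSpectrum (𝓞 K)) (hv : ((p : ℕ) : 𝓞 K) ∈ v.asIdeal) :
    ((p : ℕ) : 𝓞 K) ∉ v.asIdeal ^ 2 := by
  intro h2
  obtain ⟨δ, hδ, hδ2⟩ := exists_int h
  have hadj : Algebra.adjoin ℚ {algebraMap (𝓞 K) K δ} = ⊤ := by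
    rw [eq_top_iff]
    rintro x -
    obtain ⟨a, b, hx⟩ := h.hK x
    rw [hδ]
    have e : x = algebraMap ℚ K a + algebraMap ℚ K b * r := hx
    rw [e]
    exact add_mem (Subalgebra.algebraMap_mem _ _) (mul_mem (Subalgebra.algebraMap_mem _ _)
      (Algebra.subset_adjoin rfl))
  have h3 := aeval_derivative_mem_differentIdeal ℤ ℚ K δ hadj
  have hpp : Prime (p : ℤ) := Nat.prime_iff_prime_int.1 hp
  have hpb : Ideal.span {(p : ℤ)} ≠ ⊥ := by
    rw [Ne, Ideal.span_singleton_eq_bot]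
    exact_mod_cast hp.ne_zero
  have hpm : (Ideal.span {(p : ℤ)}).IsMaximal :=
    Ideal.IsPrime.isMaximal ((Ideal.span_singleton_prime hpp.ne_zero).2 hpp) hpb
  have h4 : v.asIdeal ^ (2 - 1) ∣ differentIdeal ℤ (𝓞 K) := by
    apply pow_sub_one_dvd_differentIdeal ℤ v.asIdeal 2 (p := Ideal.span {(p : ℤ)}) hpb
    rw [Ideal.map_span, Set.image_singleton, Ideal.dvd_span_singleton]
    simpa using h2
  rw [pow_one, Ideal.dvd_iff_le] at h4
  have h5 := h4 h3
  have hint : IsIntegral ℤ δ := RingOfIntegers.isIntegral δ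
  obtain ⟨g, hg⟩ : minpoly ℤ δ ∣ (Polynomial.X ^ 2 - Polynomial.C m : Polynomial ℤ) := by
    apply minpoly.isIntegrallyClosed_dvd hint
    simp [hδ2]
  have h6 := congrArg (fun q => Polynomial.aeval δ (Polynomial.derivative q)) hg
  simp only [Polynomial.derivative_sub, Polynomial.derivative_X_pow, Polynomial.derivative_C,
    sub_zero, Polynomial.derivative_mul, map_add, map_mul, minpoly.aeval, zero_mul, add_zero] at h6
  have h7 : 2 * δ ∈ v.asIdeal := by
    have e : 2 * δ = Polynomial.aeval δ (Polynomial.derivative (minpoly ℤ δ)) *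
        Polynomial.aeval δ g := by
      rw [← h6, Polynomial.aeval_C, map_pow, Polynomial.aeval_X]
      norm_num
    rw [e]
    exact Ideal.mul_mem_right _ _ h5
  have h8 : ((2 * m : ℤ) : 𝓞 K) ∈ v.asIdeal := by
    have e : ((2 * m : ℤ) : 𝓞 K) = δ * (2 * δ) := by
      push_cast
      rw [← hδ2]
      ring
    rw [e]
    exact Ideal.mul_mem_left _ _ h7
  exact not_mem_of_not_dvd hp v hv _ hpD h8

/-- the uniformizer -/
theorem vv_p (h : Qd m K r) {p : ℕ} (hp : p.Prime) (hpD : ¬ (p : ℤ) ∣ 2 * m)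
    (v : HeightOneSpectrum (𝓞 K)) (hv : ((p : ℕ) : 𝓞 K) ∈ v.asIdeal) :
    VV v ((p : ℕ) : v.adicCompletion K) = exp (-1 : ℤ) := by
  have h1 := val_exp v hv (not_mem_sq h hp hpD v hv)
  have h2 := vv_int v (p : ℤ)
  rw [Int.cast_natCast, Int.cast_natCast] at h2
  rw [h2, h1]

/-- an integer exactly divisible by `p` -/
theorem vv_sqf (h : Qd m K r) {p : ℕ} (hp : p.Prime) (hpD : ¬ (p : ℤ) ∣ 2 * m)
    (v : HeightOneSpectrum (𝓞 K)) (hv : ((p : ℕ) : 𝓞 K) ∈ v.asIdeal) (a : ℤ) (ha : Squarefree a)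
    (hpa : (p : ℤ) ∣ a) : VV v ((a : ℤ) : v.adicCompletion K) = exp (-1 : ℤ) := by
  obtain ⟨b, rfl⟩ := hpa
  have hb : ¬ (p : ℤ) ∣ b := by
    rintro ⟨c, rfl⟩
    have h1 := ha (p : ℤ) ⟨c, by ring⟩
    exact (Nat.prime_iff_prime_int.1 hp).not_isUnit h1
  rw [Int.cast_mul, map_mul, vv_one hp v hv b hb, mul_one, Int.cast_natCast]
  exact vv_p h hp hpD v hv

end

/-- **(GN)** -/
theorem t_GN : Pool.Agent.N875.K17.S_GN := by
  intro m hm hm1 K _ _ r hq p hp hpn w hw a b ha hb hL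
  have hpm : ¬ (p : ℤ) ∣ 2 * m := by
    intro h
    apply hpn
    have e : (34 : ℤ) * m = 17 * (2 * m) := by ring
    rw [e]
    exact h.mul_left 17
  have hp2 : ¬ (p : ℤ) ∣ 2 := fun h => hpm (h.mul_right m)
  have hp17 : ¬ (p : ℤ) ∣ 17 := fun h => hpn (by
    have e : (34 : ℤ) * m = 17 * (2 * m) := by ring
    rw [e]
    exact h.mul_right _)
  have hpZ : Prime (p : ℤ) := Nat.prime_iff_prime_int.1 hp
  have hp16 : ¬ (p : ℤ) ∣ 16 := by
    intro h
    apply hp2
    have e : (16 : ℤ) = 2 ^ 4 := by norm_num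
    rw [e] at h
    exact hpZ.dvd_of_dvd_pow h
  obtain ⟨x, y, hy0, he, hsa, hsb⟩ := hL
  have he' : y ^ 2 = x * (x + 1) * (x + (-16)) := by
    rw [he]
    push_cast
    ring
  have hsa' : IsSquare (x * (a : w.adicCompletion K)) := by
    have e : x * (a : w.adicCompletion K) = (x - ((0 : ℤ) : w.adicCompletion K)) * a := by
      push_cast
      ring
    rw [e]
    exact hsa
  have hsb' : IsSquare ((x + 1) * (b : w.adicCompletion K)) := by
    have e : (x + 1) * (b : w.adicCompletion K) =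
        (x - ((-1 : ℤ) : w.adicCompletion K)) * b := by
      push_cast
      ring
    rw [e]
    exact hsb
  have hy2 : y ^ 2 ≠ 0 := pow_ne_zero 2 hy0
  have hx0 : x ≠ 0 := by
    rintro rfl
    rw [he'] at hy2
    simp at hy2
  have hx1 : x + 1 ≠ 0 := by
    intro h
    rw [he', h] at hy2
    simp at hy2
  have v16 : VV w (-16 : w.adicCompletion K) = 1 := by
    rw [Valuation.map_neg]
    exact_mod_cast vv_one hp w hw 16 hp16
  have v17 : VV w ((1 : w.adicCompletion K) - (-16)) = 1 := by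
    have e : (1 : w.adicCompletion K) - (-16) = ((17 : ℤ) : w.adicCompletion K) := by
      push_cast
      norm_num
    rw [e]
    exact vv_one hp w hw 17 hp17
  obtain ⟨g1, g2, -⟩ := ev_good (VV w) (X := x) (δ := 1) (u := -16) (y := y) (map_one _) v16 v17
    hy0 he'
  exact ⟨fun hpa => not_sq_mul (VV w) hx0 g1 hsa' (vv_sqf hq hp hpm w hw a ha hpa),
    fun hpb => not_sq_mul (VV w) hx1 g2 hsb' (vv_sqf hq hp hpm w hw b hb hpb)⟩

end Pool.Agent.N42.K17
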